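import Pool.Agent.Helper12.MA.StA

/-!
# Project MA (MP_d63854_co), module DGT: three faces pairwise sharing an edge at a vertex
-/

set_option autoImplicit false

namespace Pool.Agent.Helper15.MA

open Pool.Agent.Helper12.MA
open Pool.Agent.Helper51.AJ (IsMinor Planar Apex ExMinor Con Tch)
open Pool.Agent.Helper12.NK (rst Kc add cnt Pcy IsFace Cof plus)

/-- a connected set which is not everything has an edge to the rest -/
private theorem leave {V : Type} {M : SimpleGraph V} {W C : Set V} (hW : Con M W) {t u : V}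
    (htC : t ∈ C) (htW : t ∈ W) (huW : u ∈ W) (huC : u ∉ C) :
    ∃ a ∈ C, ∃ b ∈ W, b ∉ C ∧ M.Adj a b := by
  obtain ⟨p⟩ := hW.preconnected ⟨t, htW⟩ ⟨u, huW⟩
  obtain ⟨d, _, h1, h2⟩ := p.exists_boundary_dart {x | (x : V) ∈ C} htC huC
  exact ⟨d.fst, h1, d.snd, d.snd.2, h2, d.adj⟩

/-- maximal connected subsets -/
private theorem comp {V : Type} [Finite V] (M : SimpleGraph V) (S : Set V) (t : V) (ht : t ∈ S) :
    ∃ C, C ⊆ S ∧ Con M C ∧ t ∈ C ∧ ∀ a ∈ C, ∀ b ∈ S, M.Adj a b → b ∈ C := by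
  obtain ⟨C, hC, hmax⟩ := Set.exists_max_image {K : Set V | K ⊆ S ∧ Con M K ∧ t ∈ K}
    (fun K => K.ncard) (Set.toFinite _) ⟨{t}, by
      refine ⟨Set.singleton_subset_iff.mpr ht, ?_, rfl⟩
      have : Subsingleton ({t} : Set V) := inferInstance
      have : Nonempty ({t} : Set V) := ⟨⟨t, rfl⟩⟩
      exact SimpleGraph.Connected.mk (fun a b => by rw [Subsingleton.elim a b])⟩
  refine ⟨C, hC.1, hC.2.1, hC.2.2, fun a ha b hb hab => ?_⟩
  by_contra hbC
  have h1 : Con M ({b} : Set V) := by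
    have : Subsingleton ({b} : Set V) := inferInstance
    have : Nonempty ({b} : Set V) := ⟨⟨b, rfl⟩⟩
    exact SimpleGraph.Connected.mk (fun a b => by rw [Subsingleton.elim a b])
  have h2 : Con M (C ∪ {b}) := SimpleGraph.connected_induce_union hC.2.1.preconnected h1.preconnected ha rfl hab
  have h3 := hmax (C ∪ {b}) ⟨Set.union_subset hC.1 (Set.singleton_subset_iff.mpr hb), h2,
    Or.inl hC.2.2⟩
  have h4 : C.ncard < (C ∪ {b}).ncard := by
    apply Set.ncard_lt_ncard _ (Set.toFinite _)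
    refine ⟨Set.subset_union_left, fun h => hbC (h (Or.inr rfl))⟩
  exact absurd h3 (not_le.mpr h4)

theorem hDGT : StPCL → StDGT := by
  intro hPCL V _ M U w F hPn hinj hwU hFinj hFf hF3 t htU hadj
  have D1 : ∀ i : Fin 4, ∃ j : Fin 4, j ≠ 3 ∧ j ≠ i := by decide
  have D2 : ∀ i : Fin 4, i ≠ 3 → ∃ j : Fin 3, i = Fin.castSucc j := by decide
  have D3 : ∀ i j : Fin 3, ∃ k : Fin 3, k ≠ i ∧ k ≠ j := by decide
  obtain ⟨c1, c2, _, c4, _, c6⟩ := hPCL V M U
  by_contra hcon
  push Not at hcon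
  obtain ⟨S, hS⟩ : ∃ S : Set V, S = U \ Set.range w := ⟨_, rfl⟩
  have htS : t ∈ S := by
    rw [hS]
    refine ⟨htU, ?_⟩
    rintro ⟨i, hi⟩
    exact hcon i hi.symm
  obtain ⟨C, hCS, hCc, htC, hCm⟩ := comp M S t htS
  have hCU : C ⊆ U := fun x hx => by
    have := hCS hx
    rw [hS] at this
    exact this.1
  have hCw : ∀ i, w i ∉ C := fun i hi => by
    have := hCS hi
    rw [hS] at this
    exact this.2 ⟨i, rfl⟩
  have key : ∀ i : Fin 4, ∃ j : Fin 4, j ≠ 3 ∧ j ≠ i ∧ ∃ a ∈ C, M.Adj a (w j) := by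
    intro i
    have hX : ({w 3, w i} : Set V).ncard < 3 :=
      lt_of_le_of_lt (Set.ncard_insert_le _ _) (by rw [Set.ncard_singleton]; norm_num)
    have hcn := hPn.1.2 _ hX
    obtain ⟨j, hj3, hji⟩ := D1 i
    have hnot : ∀ l : Fin 4, l ≠ 3 → l ≠ i → w l ∉ ({w 3, w i} : Set V) := by
      intro l h3 hi h
      rcases h with h | h
      · exact h3 (hinj h)
      · exact hi (hinj h)
    have htX : t ∉ ({w 3, w i} : Set V) := by
      rintro (h | h)
      · exact hcon 3 h
      · exact hcon i h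
    obtain ⟨a, ha, b, hb, hbC, hab⟩ := leave hcn htC ⟨htU, htX⟩ ⟨hwU j, hnot j hj3 hji⟩ (hCw j)
    by_cases hbw : b ∈ Set.range w
    · obtain ⟨l, rfl⟩ := hbw
      refine ⟨l, ?_, ?_, a, ha, hab⟩
      · rintro rfl
        exact hb.2 (Or.inl rfl)
      · rintro rfl
        exact hb.2 (Or.inr rfl)
    · exact absurd (hCm a ha b (by rw [hS]; exact ⟨hb.1, hbw⟩) hab) hbC
  obtain ⟨i', hi3, _, hti⟩ := key 3
  obtain ⟨j', hj3, hji, htj⟩ := key i'
  obtain ⟨i, rfl⟩ := D2 i' hi3
  obtain ⟨j, rfl⟩ := D2 j' hj3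
  have hij : i ≠ j := fun h => hji (by rw [h])
  obtain ⟨k, hki, hkj⟩ := D3 i j
  have hc3 : ∀ l : Fin 3, Fin.castSucc l ≠ (3 : Fin 4) := by decide
  have hcv : ∀ l m : Fin 3, l ≠ m → ((Fin.castSucc l : Fin 4) : ℕ) ≠ (m : ℕ) := by decide
  have h3v : ∀ m : Fin 3, ((3 : Fin 4) : ℕ) ≠ (m : ℕ) := by decide
  have hwne : ∀ a b : Fin 4, a ≠ b → w a ≠ w b := fun a b h h' => h (hinj h')
  have hFne : ∀ a b : Fin 3, a ≠ b → F a ≠ F b := fun a b h h' => h (hFinj h')
  have m3 : ∀ l, w 3 ∈ F l := fun l => hF3 l 3 (h3v l)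
  have ml : ∀ l m : Fin 3, l ≠ m → w (Fin.castSucc l) ∈ F m := fun l m h => hF3 m _ (hcv l m h)
  have w3i : w 3 ≠ w (Fin.castSucc i) := hwne _ _ (hc3 i).symm
  have w3j : w 3 ≠ w (Fin.castSucc j) := hwne _ _ (hc3 j).symm
  have w3k : w 3 ≠ w (Fin.castSucc k) := hwne _ _ (hc3 k).symm
  have wij : w (Fin.castSucc i) ≠ w (Fin.castSucc j) :=
    hwne _ _ (fun h => hij (Fin.castSucc_injective _ h))
  have wik : w (Fin.castSucc i) ≠ w (Fin.castSucc k) :=
    hwne _ _ (fun h => hki (Fin.castSucc_injective _ h).symm)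
  have wjk : w (Fin.castSucc j) ≠ w (Fin.castSucc k) :=
    hwne _ _ (fun h => hkj (Fin.castSucc_injective _ h).symm)
  obtain ⟨a3, ha3, hadj3⟩ : ∃ a ∈ C, M.Adj a (w 3) := ⟨t, htC, hadj.symm⟩
  obtain ⟨ai, hai, hadji⟩ := hti
  obtain ⟨aj, haj, hadjj⟩ := htj
  have pA : ∀ l, PC M U {w l} ∅ := fun l => c4 (w l) ∅ (hwU l) (fun _ h => absurd h (by simp))
  refine c6 hPn (fun n => match n with
      | 0 => {w 3}
      | 1 => {w (Fin.castSucc i)}
      | 2 => {w (Fin.castSucc j)})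
    (fun n => match n with
      | 0 => C
      | 1 => ∅
      | 2 => {w (Fin.castSucc k)})
    (fun _ => ∅)
    (fun n => match n with
      | 0 => ∅
      | 1 => {F k}
      | 2 => {F i, F j}) ?_ ?_ ?_ ?_ ?_ ?_ ?_ ?_ ?_
  · intro n
    fin_cases n
    · exact pA 3
    · exact pA _
    · exact pA _
  · intro n
    fin_cases n
    · exact c1 C hCU hCc
    · exact c2 (F k) (hFf k)
    · refine c4 (w (Fin.castSucc k)) {F i, F j} (hwU _) ?_
      rintro G (rfl | rfl)
      · exact ml k i hki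
      · exact ml k j hkj
  · intro n m hnm
    fin_cases n <;> fin_cases m <;>
      first
      | exact absurd rfl hnm
      | exact Set.disjoint_singleton.mpr w3i
      | exact Set.disjoint_singleton.mpr w3j
      | exact Set.disjoint_singleton.mpr w3i.symm
      | exact Set.disjoint_singleton.mpr w3j.symm
      | exact Set.disjoint_singleton.mpr wij
      | exact Set.disjoint_singleton.mpr wij.symm
  · intro n m hnm
    fin_cases n <;> fin_cases m <;>
      first
      | exact absurd rfl hnm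
      | exact Set.disjoint_empty _
      | exact Set.empty_disjoint _
      | exact Set.disjoint_singleton_right.mpr (hCw _)
      | exact Set.disjoint_singleton_left.mpr (hCw _)
  · intro n m
    fin_cases n <;> fin_cases m <;>
      first
      | exact Set.disjoint_empty _
      | exact Set.disjoint_singleton_left.mpr (hCw _)
      | exact Set.disjoint_singleton.mpr w3k
      | exact Set.disjoint_singleton.mpr wik
      | exact Set.disjoint_singleton.mpr wjk
  · intro n m _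
    exact Set.disjoint_empty _
  · intro n m hnm
    have e1 : F k ∉ ({F i, F j} : Set (Set V)) := by
      rintro (h | h)
      · exact hFne _ _ hki h
      · exact hFne _ _ hkj h
    fin_cases n <;> fin_cases m <;>
      first
      | exact absurd rfl hnm
      | exact Set.disjoint_empty _
      | exact Set.empty_disjoint _
      | exact Set.disjoint_singleton_left.mpr e1
      | exact Set.disjoint_singleton_right.mpr e1
  · intro n m
    exact Set.empty_disjoint _
  · intro n m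
    fin_cases n <;> fin_cases m
    · exact Or.inl ⟨w 3, rfl, a3, ha3, hwU _, hCU ha3, hadj3.symm⟩
    · exact Or.inr (Or.inl ⟨w 3, rfl, F k, rfl, hFf k, m3 k⟩)
    · exact Or.inr (Or.inl ⟨w 3, rfl, F i, Or.inl rfl, hFf i, m3 i⟩)
    · exact Or.inl ⟨_, rfl, ai, hai, hwU _, hCU hai, hadji.symm⟩
    · exact Or.inr (Or.inl ⟨_, rfl, F k, rfl, hFf k, ml i k hki.symm⟩)
    · exact Or.inr (Or.inl ⟨_, rfl, F j, Or.inr rfl, hFf j, ml i j hij⟩)
    · exact Or.inl ⟨_, rfl, aj, haj, hwU _, hCU haj, hadjj.symm⟩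
    · exact Or.inr (Or.inl ⟨_, rfl, F k, rfl, hFf k, ml j k hkj.symm⟩)
    · exact Or.inr (Or.inl ⟨_, rfl, F i, Or.inl rfl, hFf i, ml j i hij.symm⟩)

end Pool.Agent.Helper15.MA
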