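import Pool.Agent.Helper12.MA.StC

/-!
# Project MA (MP_d63854_co), module ENS: symmetry of `Env`, cofacial opposite vertices
-/

set_option autoImplicit false

namespace Pool.Agent.Helper15.MA

open Pool.Agent.Helper12.MA
open Pool.Agent.Helper51.AJ (IsMinor Planar Apex ExMinor Con Tch)
open Pool.Agent.Helper12.NK (rst Kc add cnt Pcy IsFace Cof plus)

private theorem off {V : Type} {G : SimpleGraph V} {z v p q r r' : V} {f1 f3 X₀ Y₀ : Set V}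
    {σ b : V} {X Y : Set V} (hC : Cut G z v p q r r' f1 f3 σ b X Y) (hX : X₀ ⊆ X) (hY : Y₀ ⊆ Y) :
    σ ∉ X₀ ∪ Y₀ ∧ b ∉ X₀ ∪ Y₀ := by
  have hc : X ∪ Y = ({v, z, σ, b} : Set V)ᶜ := hC.sep.cov
  have hsub : X₀ ∪ Y₀ ⊆ ({v, z, σ, b} : Set V)ᶜ := by
    rw [← hc]
    exact Set.union_subset_union hX hY
  constructor
  · intro h
    exact hsub h (by simp)
  · intro h
    exact hsub h (by simp)

theorem hENS : StSYM → StOTC → StCUM → StCUN → StENS := by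
  intro hSYM hOTC hCUM hCUN V _ G z v p q r r' f1 f2 f3 f4 X₀ Y₀ x y hE
  obtain ⟨s1, _, _, s4⟩ := hSYM V G z v p q r r' f1 f2 f3 f4 hE.cf
  obtain ⟨_, _, _, s4'⟩ := hSYM V G z v q p r' r f3 f4 f1 f2 s1
  have h2 : ∀ σ b X Y, Cut G z v p q r r' f1 f3 σ b X Y → σ ∉ X₀ ∪ Y₀ ∧ b ∉ X₀ ∪ Y₀ :=
    fun σ b X Y hC => off hC (hE.mX σ b X Y hC).1 (hE.mX σ b X Y hC).2
  refine ⟨?_, h2, ?_, ?_⟩
  · refine ⟨s1, ?_, ?_, ?_, hE.yY, hE.yq, hE.yr, hE.vy, hE.xX, hE.xp, hE.xs, hE.vx⟩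
    · obtain ⟨σ, b, X, hC⟩ := hE.cY
      exact ⟨b, σ, X, s4 σ b X Y₀ hC⟩
    · obtain ⟨σ, b, Y, hC⟩ := hE.cX
      exact ⟨b, σ, Y, s4 σ b X₀ Y hC⟩
    · intro σ b X Y hC
      have h := hE.mX b σ Y X (s4' σ b X Y hC)
      exact ⟨h.2, h.1⟩
  · intro a ha c hc haz hap har hcz hcq hcr hor hcof
    obtain ⟨X, Y, hC⟩ := hCUM V G z v p q r r' f1 f2 f3 f4 hE.cf a ha c hc haz hap har hcz hcq
      hcr hcof
    rcases hor with h | h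
    · exact (h2 a c X Y hC).1 h
    · exact (h2 a c X Y hC).2 h
  · intro t Γ hN
    obtain ⟨σ0, b0, Y0, hC0⟩ := hE.cX
    obtain ⟨b, X, Y, h | h | h | h⟩ := hOTC V G z v p q r r' f1 f2 f3 f4 hE.cf t Γ hN
    · exact ⟨b, X, Y, Or.inl h⟩
    · exact ⟨b, X, Y, Or.inr h⟩
    · exact absurd h (fun h => hCUN V G z v p q r r' f1 f2 f3 f4 hE.cf σ0 b0 t b X₀ Y0 X Y hC0 h)
    · exact absurd h (fun h => hCUN V G z v p q r r' f1 f2 f3 f4 hE.cf σ0 b0 b t X₀ Y0 X Y hC0 h)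

end Pool.Agent.Helper15.MA
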